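import Mathlib

/-!
Definitions for the question on subgaussian sets of characters on `(ℤ/mℤ)^ℕ`
(the question is the case `m = 4`).
-/

namespace Pool.Agent.Lib.MP_080bf7_an

open MeasureTheory

/-- The compact abelian group `G = (ℤ/mℤ)^ℕ` (product topology, product Borel structure). -/
abbrev G (m : ℕ) : Type := ℕ → ZMod m

/-- The dual group of `G`, written additively: the finitely supported sequences in `ℤ/mℤ`. -/
abbrev Ghat (m : ℕ) : Type := ℕ →₀ ZMod m

/-- Normalised Haar measure on `G`: the Haar measure for which the whole group has mass one. -/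
noncomputable def haarG (m : ℕ) [NeZero m] : Measure (G m) := Measure.addHaarMeasure ⊤

/-- The character `γ_n(t) = exp (2 π i (∑_k t_k n_k) / m)` attached to `n`. -/
noncomputable def character (m : ℕ) (n : Ghat m) (t : G m) : ℂ :=
  Complex.exp (2 * Real.pi * Complex.I * ((∑ k ∈ n.support, (t k).val * (n k).val : ℕ) : ℂ) / m)

/-- The norm `‖f‖ = inf {c > 0 : ∫ exp (|f|² / c²) ≤ e}`. For a trigonometric polynomial `f`
the set is nonempty, as `f` is bounded. -/
noncomputable def psi2Norm (m : ℕ) [NeZero m] (f : G m → ℂ) : ℝ :=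
  sInf {c : ℝ | 0 < c ∧
    ∫⁻ t, ENNReal.ofReal (Real.exp (‖f t‖ ^ 2 / c ^ 2)) ∂(haarG m) ≤ ENNReal.ofReal (Real.exp 1)}

/-- A set `Λ` of characters is subgaussian if for some constant `C` the `ψ₂`-norm of every
finite sum `∑_{n ∈ Λ} a_n γ_n` is at most `C (∑ |a_n|²)^{1/2}`. -/
def IsSubgaussian (m : ℕ) [NeZero m] (Λ : Set (Ghat m)) : Prop :=
  ∃ C : ℝ, ∀ a : Ghat m →₀ ℂ, (a.support : Set (Ghat m)) ⊆ Λ →
    psi2Norm m (fun t => ∑ n ∈ a.support, a n * character m n t) ≤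
      C * Real.sqrt (∑ n ∈ a.support, ‖a n‖ ^ 2)

/-- A set `Λ` of nonzero elements is quasi-independent if the only relation
`∑ ξ_λ λ = 0` with finitely many distinct `λ ∈ Λ` and `ξ_λ ∈ {-1, 0, 1}` is the trivial one. -/
def IsQuasiIndependent (m : ℕ) (Λ : Set (Ghat m)) : Prop :=
  (0 : Ghat m) ∉ Λ ∧ ∀ (s : Finset (Ghat m)) (ξ : Ghat m → ℤ), (s : Set (Ghat m)) ⊆ Λ →
    (∀ n ∈ s, ξ n = -1 ∨ ξ n = 0 ∨ ξ n = 1) → ∑ n ∈ s, ξ n • n = 0 → ∀ n ∈ s, ξ n = 0

end Pool.Agent.Lib.MP_080bf7_an
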