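import Mathlib
import Pool.Agent.Lib.MP_080bf7_an.Defs

/-! Basic facts on the characters. -/

namespace Pool.Agent.Lib.MP_080bf7_an

set_option linter.unusedSectionVars false

open MeasureTheory

/-- the pairing -/
noncomputable def pair (m : ℕ) (n : Ghat m) (t : G m) : ZMod m :=
  n.sum fun k a => t k * a

variable {m : ℕ} [NeZero m]

theorem character_eq (n : Ghat m) (t : G m) :
    character m n t = ZMod.stdAddChar (pair m n t) := by
  have h : pair m n t = (((∑ k ∈ n.support, (t k).val * (n k).val : ℕ) : ℤ) : ZMod m) := by
    unfold pair
    rw [Finsupp.sum]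
    push_cast
    apply Finset.sum_congr rfl
    intro k _
    rw [ZMod.natCast_zmod_val, ZMod.natCast_zmod_val]
  rw [h, ZMod.stdAddChar_coe]
  unfold character
  congr 1

theorem pair_add (n n' : Ghat m) (t : G m) : pair m (n + n') t = pair m n t + pair m n' t := by
  unfold pair
  rw [Finsupp.sum_add_index']
  · intro a; simp
  · intro a b c; ring

theorem pair_zero (t : G m) : pair m 0 t = 0 := by simp [pair]

theorem pair_add_right (n : Ghat m) (t t' : G m) :
    pair m n (t + t') = pair m n t + pair m n t' := by
  unfold pair
  rw [Finsupp.sum, Finsupp.sum, Finsupp.sum, ← Finset.sum_add_distrib]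
  apply Finset.sum_congr rfl
  intro k _
  simp only [Pi.add_apply]
  ring

theorem char_add (n n' : Ghat m) (t : G m) :
    character m (n + n') t = character m n t * character m n' t := by
  rw [character_eq, character_eq, character_eq, pair_add, AddChar.map_add_eq_mul]

theorem char_zero (t : G m) : character m 0 t = 1 := by
  rw [character_eq, pair_zero, AddChar.map_zero_eq_one]

theorem char_add_right (n : Ghat m) (t t' : G m) :
    character m n (t + t') = character m n t * character m n t' := by
  rw [character_eq, character_eq, character_eq, pair_add_right, AddChar.map_add_eq_mul]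

theorem norm_char (n : Ghat m) (t : G m) : ‖character m n t‖ = 1 := by
  rw [character_eq]
  exact AddChar.norm_apply _ _

theorem char_ne_zero (n : Ghat m) (t : G m) : character m n t ≠ 0 := by
  intro h
  have := norm_char n t
  rw [h] at this
  simp at this

theorem char_neg (n : Ghat m) (t : G m) :
    character m (-n) t = (starRingEnd ℂ) (character m n t) := by
  have h1 : character m (-n) t * character m n t = 1 := by
    rw [← char_add, neg_add_cancel, char_zero]
  have h2 : (starRingEnd ℂ) (character m n t) * character m n t = 1 := by
    rw [mul_comm, Complex.mul_conj, Complex.normSq_eq_norm_sq, norm_char]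
    simp
  exact mul_right_cancel₀ (char_ne_zero n t) (h1.trans h2.symm)

theorem char_sum {ι : Type*} (s : Finset ι) (n : ι → Ghat m) (t : G m) :
    character m (∑ i ∈ s, n i) t = ∏ i ∈ s, character m (n i) t := by
  classical
  induction s using Finset.induction_on with
  | empty => simp [char_zero]
  | insert a s ha ih => rw [Finset.sum_insert ha, Finset.prod_insert ha, char_add, ih]

theorem continuous_char (n : Ghat m) : Continuous (character m n) := by
  have h : character m n = fun t => ZMod.stdAddChar (pair m n t) := by
    ext t; exact character_eq n t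
  rw [h]
  have h1 : Continuous (pair m n) := by
    unfold pair
    simp only [Finsupp.sum]
    exact continuous_finsetSum _ (fun k _ => (continuous_apply k).mul continuous_const)
  exact (continuous_of_discreteTopology).comp h1

theorem exists_char_ne_one {n : Ghat m} (hn : n ≠ 0) : ∃ t : G m, character m n t ≠ 1 := by
  obtain ⟨k, hk⟩ : ∃ k, n k ≠ 0 := by
    by_contra h
    push Not at h
    exact hn (Finsupp.ext h)
  refine ⟨Pi.single k 1, ?_⟩
  rw [character_eq]
  have h1 : pair m n (Pi.single k 1) = n k := by
    unfold pair
    rw [Finsupp.sum, Finset.sum_eq_single k]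
    · simp
    · intro b _ hb
      simp [Pi.single_eq_of_ne hb]
    · intro h
      simp only [Finsupp.mem_support_iff, not_not] at h
      simp [h]
  rw [h1]
  intro h2
  have h3 : (ZMod.stdAddChar (n k) : ℂ) = ZMod.stdAddChar (0 : ZMod m) := by
    rw [h2, AddChar.map_zero_eq_one]
  exact hk (ZMod.injective_stdAddChar h3)

instance : (haarG m).IsAddHaarMeasure := by
  unfold haarG; infer_instance

instance : IsProbabilityMeasure (haarG m) := by
  constructor
  have := Measure.addHaarMeasure_self (G := G m) (K₀ := ⊤)
  simpa [haarG] using this

theorem integrable_of_cont {f : G m → ℂ} (hf : Continuous f) : Integrable f (haarG m) :=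
  hf.integrable_of_hasCompactSupport (HasCompactSupport.of_compactSpace f)

theorem integrable_of_cont_real {f : G m → ℝ} (hf : Continuous f) : Integrable f (haarG m) :=
  hf.integrable_of_hasCompactSupport (HasCompactSupport.of_compactSpace f)

theorem integral_char (n : Ghat m) :
    ∫ t, character m n t ∂(haarG m) = if n = 0 then 1 else 0 := by
  split_ifs with h
  · subst h
    simp [char_zero]
  · obtain ⟨t0, ht0⟩ := exists_char_ne_one h
    have h1 : ∫ t, character m n (t + t0) ∂(haarG m) = ∫ t, character m n t ∂(haarG m) :=
      integral_add_right_eq_self _ t0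
    simp only [char_add_right] at h1
    rw [integral_mul_const] at h1
    have h2 : (∫ t, character m n t ∂(haarG m)) * (character m n t0 - 1) = 0 := by
      rw [mul_sub, h1]; ring
    rcases mul_eq_zero.mp h2 with h3 | h3
    · exact h3
    · exact absurd (sub_eq_zero.mp h3) ht0

end Pool.Agent.Lib.MP_080bf7_an
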