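import Mathlib

/-! Rado's theorem on independent transversals, for monotone submodular functions. -/

namespace Pool.Agent.Lib.MP_080bf7_an

open Finset

/-- Rado's theorem for a monotone submodular set function. -/
theorem rado {E Ω : Type*} [DecidableEq E] [DecidableEq Ω] [Nonempty Ω] (ρ : Finset Ω → ℕ)
    (h0 : ρ ∅ = 0)
    (hmono : ∀ X Y, X ⊆ Y → ρ X ≤ ρ Y)
    (hsub : ∀ X Y, ρ (X ∪ Y) + ρ (X ∩ Y) ≤ ρ X + ρ Y)
    (S : Finset E) (X : E → Finset Ω)
    (h : ∀ K ⊆ S, K.card ≤ ρ (K.biUnion X)) :
    ∃ f : E → Ω, (∀ e ∈ S, f e ∈ X e) ∧ ∀ K ⊆ S, K.card ≤ ρ (K.image f) := by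
  classical
  induction hN : ∑ e ∈ S, (X e).card using Nat.strong_induction_on generalizing X with
  | _ N ih =>
  subst hN
  have hne : ∀ e ∈ S, (X e).Nonempty := by
    intro e he
    by_contra hcon
    rw [Finset.not_nonempty_iff_eq_empty] at hcon
    have := h {e} (by simpa using he)
    simp [hcon, h0] at this
  by_cases hall : ∀ e ∈ S, (X e).card ≤ 1
  · have hex : ∀ e : E, ∃ w : Ω, e ∈ S → X e = {w} := by
      intro e
      by_cases he : e ∈ S
      · have h1 : (X e).card = 1 := le_antisymm (hall e he) (Finset.card_pos.mpr (hne e he))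
        obtain ⟨w, hw⟩ := Finset.card_eq_one.mp h1
        exact ⟨w, fun _ => hw⟩
      · exact ⟨Classical.arbitrary Ω, fun h => absurd h he⟩
    choose f hf using hex
    refine ⟨f, fun e he => by simp [hf e he], fun K hK => ?_⟩
    have : K.biUnion X = K.image f := by
      ext w
      simp only [mem_biUnion, mem_image]
      constructor
      · rintro ⟨e, he, hw⟩
        rw [hf e (hK he), mem_singleton] at hw
        exact ⟨e, he, hw.symm⟩
      · rintro ⟨e, he, hw⟩
        refine ⟨e, he, ?_⟩
        rw [hf e (hK he), mem_singleton]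
        exact hw.symm
    rw [← this]
    exact h K hK
  · push Not at hall
    obtain ⟨e, he, hcard⟩ := hall
    obtain ⟨x, hx, y, hy, hxy⟩ := Finset.one_lt_card.mp hcard
    -- the reduced families
    let Xr : Ω → E → Finset Ω := fun z => Function.update X e ((X e).erase z)
    have hXr : ∀ z ∈ X e, (∑ e' ∈ S, (Xr z e').card) < ∑ e' ∈ S, (X e').card := by
      intro z hz
      apply Finset.sum_lt_sum
      · intro i _
        by_cases hi : i = e
        · subst hi
          simp only [Xr, Function.update_self]
          exact Finset.card_le_card (Finset.erase_subset _ _)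
        · simp [Xr, Function.update_of_ne hi]
      · refine ⟨e, he, ?_⟩
        simp only [Xr, Function.update_self]
        exact Finset.card_erase_lt_of_mem hz
    have hsubX : ∀ z e', Xr z e' ⊆ X e' := by
      intro z e'
      by_cases hi : e' = e
      · subst hi
        simp only [Xr, Function.update_self]
        exact Finset.erase_subset _ _
      · simp [Xr, Function.update_of_ne hi]
    have key : (∀ K ⊆ S, K.card ≤ ρ (K.biUnion (Xr x))) ∨
        (∀ K ⊆ S, K.card ≤ ρ (K.biUnion (Xr y))) := by
      by_contra hcon
      push Not at hcon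
      obtain ⟨⟨K1, hK1, hK1'⟩, ⟨K2, hK2, hK2'⟩⟩ := hcon
      have he1 : e ∈ K1 := by
        by_contra hn
        have : K1.biUnion (Xr x) = K1.biUnion X := by
          apply Finset.biUnion_congr rfl
          intro a ha
          have : a ≠ e := fun h => hn (h ▸ ha)
          simp [Xr, Function.update_of_ne this]
        rw [this] at hK1'
        exact absurd (h K1 hK1) (by omega)
      have he2 : e ∈ K2 := by
        by_contra hn
        have : K2.biUnion (Xr y) = K2.biUnion X := by
          apply Finset.biUnion_congr rfl
          intro a ha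
          have : a ≠ e := fun h => hn (h ▸ ha)
          simp [Xr, Function.update_of_ne this]
        rw [this] at hK2'
        exact absurd (h K2 hK2) (by omega)
      have hU : (K1 ∪ K2).biUnion X ⊆ K1.biUnion (Xr x) ∪ K2.biUnion (Xr y) := by
        intro w hw
        simp only [mem_biUnion, mem_union] at hw ⊢
        obtain ⟨a, ha, hw⟩ := hw
        by_cases hae : a = e
        · subst hae
          by_cases hwx : w = x
          · right
            refine ⟨a, he2, ?_⟩
            simp only [Xr, Function.update_self, mem_erase]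
            exact ⟨by rw [hwx]; exact hxy, hw⟩
          · left
            refine ⟨a, he1, ?_⟩
            simp only [Xr, Function.update_self, mem_erase]
            exact ⟨hwx, hw⟩
        · rcases ha with ha | ha
          · left
            exact ⟨a, ha, by simpa [Xr, Function.update_of_ne hae] using hw⟩
          · right
            exact ⟨a, ha, by simpa [Xr, Function.update_of_ne hae] using hw⟩
      have hI : ((K1 ∩ K2).erase e).biUnion X ⊆ K1.biUnion (Xr x) ∩ K2.biUnion (Xr y) := by
        intro w hw
        simp only [mem_biUnion, mem_inter, mem_erase] at hw ⊢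
        obtain ⟨a, ⟨hae, ha1, ha2⟩, hw⟩ := hw
        exact ⟨⟨a, ha1, by simpa [Xr, Function.update_of_ne hae] using hw⟩,
          ⟨a, ha2, by simpa [Xr, Function.update_of_ne hae] using hw⟩⟩
      have h1 := h (K1 ∪ K2) (Finset.union_subset hK1 hK2)
      have h2 := h ((K1 ∩ K2).erase e)
        ((Finset.erase_subset _ _).trans (Finset.inter_subset_left.trans hK1))
      have h3 := hsub (K1.biUnion (Xr x)) (K2.biUnion (Xr y))
      have h4 := hmono _ _ hU
      have h5 := hmono _ _ hI
      have h6 : ((K1 ∩ K2).erase e).card = (K1 ∩ K2).card - 1 :=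
        Finset.card_erase_of_mem (by simp [he1, he2])
      have h7 : 0 < (K1 ∩ K2).card := Finset.card_pos.mpr ⟨e, by simp [he1, he2]⟩
      have h8 := Finset.card_union_add_card_inter K1 K2
      omega
    rcases key with key | key
    · obtain ⟨f, hf1, hf2⟩ := ih _ (hXr x hx) (Xr x) key rfl
      exact ⟨f, fun e' he' => hsubX x e' (hf1 e' he'), hf2⟩
    · obtain ⟨f, hf1, hf2⟩ := ih _ (hXr y hy) (Xr y) key rfl
      exact ⟨f, fun e' he' => hsubX y e' (hf1 e' he'), hf2⟩

end Pool.Agent.Lib.MP_080bf7_an
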