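import Mathlib

/-! Rank function of a finite family of vectors. -/

namespace Pool.Agent.Lib.MP_080bf7_an

set_option linter.unusedSectionVars false

open Finset

section

variable {F W V : Type*} [Field F] [AddCommGroup W] [Module F W] [DecidableEq V]

/-- The rank of the image of a finite set `J` under `φ : V → W`. -/
noncomputable def rk (F : Type*) [Ring F] {W V : Type*} [AddCommGroup W] [Module F W]
    (φ : V → W) (J : Finset V) : ℕ :=
  Module.finrank F (Submodule.span F (φ '' (J : Set V)))

instance (φ : V → W) (J : Finset V) :
    FiniteDimensional F (Submodule.span F (φ '' (J : Set V))) :=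
  FiniteDimensional.span_of_finite F ((Finset.finite_toSet J).image φ)

theorem rk_empty (φ : V → W) : rk F φ ∅ = 0 := by
  simp [rk]

theorem rk_mono (φ : V → W) {J K : Finset V} (h : J ⊆ K) : rk F φ J ≤ rk F φ K := by
  unfold rk
  exact Submodule.finrank_mono (Submodule.span_mono (Set.image_mono (by exact_mod_cast h)))

theorem rk_submod (φ : V → W) (J K : Finset V) :
    rk F φ (J ∪ K) + rk F φ (J ∩ K) ≤ rk F φ J + rk F φ K := by
  unfold rk
  rw [← Submodule.finrank_sup_add_finrank_inf_eq (Submodule.span F (φ '' (J : Set V)))
    (Submodule.span F (φ '' (K : Set V)))]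
  apply add_le_add
  · apply le_of_eq
    rw [Finset.coe_union, Set.image_union, Submodule.span_union]
  · apply Submodule.finrank_mono
    rw [Finset.coe_inter]
    apply le_inf
    · exact Submodule.span_mono (Set.image_mono Set.inter_subset_left)
    · exact Submodule.span_mono (Set.image_mono Set.inter_subset_right)

theorem rk_insert_le (φ : V → W) (J : Finset V) (v : V) :
    rk F φ (insert v J) ≤ rk F φ J + 1 := by
  have h := rk_submod (F := F) φ {v} J
  have h1 : rk F φ {v} ≤ 1 := by
    unfold rk
    rw [Finset.coe_singleton, Set.image_singleton]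
    exact (finrank_span_le_card (R := F) ({φ v} : Set W)).trans (by simp)
  have h2 : insert v J = {v} ∪ J := by ext; simp
  rw [h2]
  omega

theorem rk_union_le (φ : V → W) (J K : Finset V) :
    rk F φ (J ∪ K) ≤ rk F φ J + K.card := by
  induction K using Finset.induction_on with
  | empty => simp
  | insert a s ha ih =>
    rw [Finset.union_insert, Finset.card_insert_of_notMem ha]
    have := rk_insert_le (F := F) φ (J ∪ s) a
    omega

theorem rk_insert_eq (φ : V → W) (J : Finset V) (v : V)
    (h : φ v ∈ Submodule.span F (φ '' (J : Set V))) :
    rk F φ (insert v J) = rk F φ J := by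
  unfold rk
  rw [Finset.coe_insert, Set.image_insert_eq, Submodule.span_insert_eq_span h]

end

end Pool.Agent.Lib.MP_080bf7_an
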