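import Mathlib
import Pool.Agent.Lib.MP_080bf7_an.Rado
import Pool.Agent.Lib.MP_080bf7_an.Rank

/-! The covering lemma. -/

namespace Pool.Agent.Lib.MP_080bf7_an

set_option linter.unusedSectionVars false

open Finset

section

variable {V : Type*} [AddCommGroup V] [DecidableEq V]

/-- The subgroup of multiples of `p` in the subgroup generated by `A`. -/
def pPart (p : ℕ) (A : Finset V) : AddSubgroup (AddSubgroup.closure (A : Set V)) :=
  (nsmulAddMonoidHom p : AddSubgroup.closure (A : Set V) →+ AddSubgroup.closure (A : Set V)).range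

/-- The quotient `H / p H`, where `H` is generated by `A`. -/
abbrev QW (p : ℕ) (A : Finset V) : Type _ :=
  (AddSubgroup.closure (A : Set V)) ⧸ pPart p A

noncomputable instance (p : ℕ) (A : Finset V) : Module (ZMod p) (QW p A) :=
  QuotientAddGroup.zmodModule (fun x => ⟨x, rfl⟩)

open Classical in
/-- The map `A → H / p H`, extended by zero outside `H`. -/
noncomputable def phi (p : ℕ) (A : Finset V) (v : V) : QW p A :=
  if h : v ∈ AddSubgroup.closure (A : Set V) then QuotientAddGroup.mk ⟨v, h⟩ else 0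

theorem phi_of_mem (p : ℕ) (A : Finset V) {v : V} (h : v ∈ AddSubgroup.closure (A : Set V)) :
    phi p A v = QuotientAddGroup.mk' (pPart p A) ⟨v, h⟩ := by
  simp [phi, h]

theorem sum_phi (p : ℕ) (A : Finset V) (s : Finset V) (hs : s ⊆ A) (ξ : V → ℤ)
    (h : ∑ v ∈ s, ξ v • v = 0) : ∑ v ∈ s, ξ v • phi p A v = 0 := by
  have hmem : ∀ v ∈ s, v ∈ AddSubgroup.closure (A : Set V) := fun v hv =>
    AddSubgroup.subset_closure (by exact_mod_cast hs hv)
  have h1 : ∑ v ∈ s, ξ v • phi p A v =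
      ∑ v : s, ξ v.1 • QuotientAddGroup.mk' (pPart p A) ⟨v.1, hmem v.1 v.2⟩ := by
    rw [← Finset.sum_coe_sort s]
    apply Finset.sum_congr rfl
    intro v _
    rw [phi_of_mem p A (hmem v.1 v.2)]
  rw [h1]
  have h2 : ∑ v : s, ξ v.1 • QuotientAddGroup.mk' (pPart p A) ⟨v.1, hmem v.1 v.2⟩ =
      QuotientAddGroup.mk' (pPart p A)
        (∑ v : s, ξ v.1 • (⟨v.1, hmem v.1 v.2⟩ : AddSubgroup.closure (A : Set V))) := by
    rw [map_sum]
    simp only [map_zsmul]
  rw [h2]
  have h3 : (∑ v : s, ξ v.1 • (⟨v.1, hmem v.1 v.2⟩ : AddSubgroup.closure (A : Set V))) = 0 := by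
    apply Subtype.ext
    rw [AddSubgroup.val_finsetSum]
    simp only [AddSubgroup.coe_zsmul, AddSubgroup.coe_zero]
    rw [Finset.sum_coe_sort s (fun v => ξ v • v)]
    exact h
  rw [h3, map_zero]

/-- `D p A` is the dimension of `H / p H` over `ℤ / p ℤ`, where `H` is generated by `A`. -/
noncomputable def D (p : ℕ) (A : Finset V) : ℕ := rk (ZMod p) (phi p A) A

/-- quasi-independence (without the clause about zero, which follows). -/
def QI (B : Set V) : Prop :=
  ∀ (s : Finset V) (ξ : V → ℤ), (↑s ⊆ B) → (∀ n ∈ s, ξ n = -1 ∨ ξ n = 0 ∨ ξ n = 1) →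
    ∑ n ∈ s, ξ n • n = 0 → ∀ n ∈ s, ξ n = 0

/-- A relation whose support is contained in `A1 ∪ B` and meets `B` contradicts independence
of `B` over `A1`. -/
theorem rel_contra (p : ℕ) [Fact p.Prime] (A A1 B : Finset V) (hA1 : A1 ⊆ A) (hB : B ⊆ A)
    (hcard : rk (ZMod p) (phi p A) A1 + B.card ≤ rk (ZMod p) (phi p A) (A1 ∪ B))
    (s : Finset V) (ξ : V → ℤ) (hs : s ⊆ A1 ∪ B)
    (hξ : ∀ n ∈ s, ξ n = -1 ∨ ξ n = 0 ∨ ξ n = 1)
    (hsum : ∑ n ∈ s, ξ n • n = 0) (v0 : V) (hv0 : v0 ∈ s) (hv0B : v0 ∈ B) (hv0A : v0 ∉ A1) :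
    ξ v0 = 0 := by
  by_contra hne
  have hsA : s ⊆ A := hs.trans (Finset.union_subset hA1 hB)
  have h1 := sum_phi p A s hsA ξ hsum
  rw [← Finset.add_sum_erase s _ hv0] at h1
  have hmem : phi p A v0 ∈ Submodule.span (ZMod p)
      (phi p A '' ((A1 ∪ B.erase v0 : Finset V) : Set V)) := by
    have hsumem : ∑ x ∈ s.erase v0, ξ x • phi p A x ∈ Submodule.span (ZMod p)
        (phi p A '' ((A1 ∪ B.erase v0 : Finset V) : Set V)) := by
      apply Submodule.sum_mem
      intro x hx
      apply zsmul_mem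
      apply Submodule.subset_span
      refine ⟨x, ?_, rfl⟩
      rw [Finset.mem_erase] at hx
      have := hs hx.2
      simp only [Finset.coe_union, Finset.coe_erase, Set.mem_union, Finset.mem_coe,
        Set.mem_sdiff, Set.mem_singleton_iff]
      rw [Finset.mem_union] at this
      rcases this with h | h
      · exact Or.inl h
      · exact Or.inr ⟨h, hx.1⟩
    rcases hξ v0 hv0 with h | h | h
    · rw [h] at h1
      have : phi p A v0 = ∑ x ∈ s.erase v0, ξ x • phi p A x := by
        have h2 : -phi p A v0 + ∑ x ∈ s.erase v0, ξ x • phi p A x = 0 := by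
          simpa using h1
        exact (neg_add_eq_zero.mp h2)
      rw [this]
      exact hsumem
    · exact absurd h hne
    · rw [h] at h1
      have : phi p A v0 = -∑ x ∈ s.erase v0, ξ x • phi p A x := by
        have h2 : phi p A v0 + ∑ x ∈ s.erase v0, ξ x • phi p A x = 0 := by
          simpa using h1
        exact eq_neg_of_add_eq_zero_left h2
      rw [this]
      exact Submodule.neg_mem _ hsumem
  have h2 := rk_insert_eq (F := ZMod p) (phi p A) (A1 ∪ B.erase v0) v0 hmem
  have h3 : insert v0 (A1 ∪ B.erase v0) = A1 ∪ B := by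
    ext x
    simp only [Finset.mem_insert, Finset.mem_union, Finset.mem_erase]
    by_cases hx : x = v0
    · subst hx; simp [hv0B]
    · simp [hx]
  rw [h3] at h2
  have h4 := rk_union_le (F := ZMod p) (phi p A) A1 (B.erase v0)
  have h5 := Finset.card_erase_of_mem hv0B
  have h6 : 0 < B.card := Finset.card_pos.mpr ⟨v0, hv0B⟩
  omega

theorem cover (P : Finset ℕ) (hP : ∀ p ∈ P, p.Prime) (C : ℕ) (A : Finset V)
    (hA : ∀ J ⊆ A, J.Nonempty → J.card < C * ∑ p ∈ P, D p J) (hne : Nonempty (P × Fin C)) :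
    ∃ κ : V → P × Fin C, ∀ i, QI {v : V | v ∈ A ∧ κ v = i} := by
  classical
  induction hN : A.card using Nat.strong_induction_on generalizing A with
  | _ N ih =>
  subst hN
  by_cases hAe : A = ∅
  · subst hAe
    refine ⟨fun _ => hne.some, fun i s ξ hs _ _ n hn => ?_⟩
    exact absurd (hs hn).1 (by simp)
  have hAne : A.Nonempty := Finset.nonempty_iff_ne_empty.mpr hAe
  -- rank functions relative to `A`
  let R : ℕ → Finset V → ℕ := fun p J => rk (ZMod p) (phi p A) J
  let Φ : Finset V → ℤ := fun J => (J.card : ℤ) - C * ∑ p ∈ P, (R p J : ℤ)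
  obtain ⟨A1, hA1mem, hA1max⟩ := Finset.exists_max_image A.powerset Φ ⟨∅, by simp⟩
  have hA1 : A1 ⊆ A := Finset.mem_powerset.mp hA1mem
  have hΦ0 : Φ ∅ = 0 := by
    simp only [Φ, R, Finset.card_empty, Nat.cast_zero, zero_sub, neg_eq_zero, mul_eq_zero]
    right
    apply Finset.sum_eq_zero
    intro p hp
    have : Fact p.Prime := ⟨hP p hp⟩
    simp [rk_empty (F := ZMod p)]
  have hΦA : Φ A < 0 := by
    have := hA A (Finset.Subset.refl A) hAne
    have h' : ((A.card : ℕ) : ℤ) < ((C * ∑ p ∈ P, D p A : ℕ) : ℤ) := by exact_mod_cast this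
    push_cast at h'
    simp only [Φ, R]
    have : (∑ p ∈ P, (rk (ZMod p) (phi p A) A : ℤ)) = ∑ p ∈ P, (D p A : ℤ) := rfl
    rw [this]
    linarith
  have hA1ne : A1 ≠ A := by
    intro h
    have h1 := hA1max ∅ (by simp)
    rw [hΦ0, h] at h1
    exact absurd h1 (not_le.mpr hΦA)
  have hA1lt : A1.card < A.card :=
    Finset.card_lt_card ⟨hA1, fun h => hA1ne (Finset.Subset.antisymm hA1 h)⟩
  obtain ⟨κ1, hκ1⟩ := ih A1.card hA1lt A1 (fun J hJ => hA J (hJ.trans hA1)) rfl
  -- the submodular function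
  let sec : Finset (V × (P × Fin C)) → (P × Fin C) → Finset V :=
    fun X i => (X.filter (fun w => w.2 = i)).image Prod.fst
  let ρ : Finset (V × (P × Fin C)) → ℕ :=
    fun X => ∑ i : P × Fin C, (R i.1.1 (A1 ∪ sec X i) - R i.1.1 A1)
  have hRmono : ∀ p ∈ P, ∀ J K : Finset V, J ⊆ K → R p J ≤ R p K := by
    intro p hp J K hJK
    have : Fact p.Prime := ⟨hP p hp⟩
    exact rk_mono (F := ZMod p) _ hJK
  have hRsub : ∀ p ∈ P, ∀ J K : Finset V, R p (J ∪ K) + R p (J ∩ K) ≤ R p J + R p K := by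
    intro p hp J K
    have : Fact p.Prime := ⟨hP p hp⟩
    exact rk_submod (F := ZMod p) _ J K
  have hρ0 : ρ ∅ = 0 := by
    simp [ρ, sec]
  have hρmono : ∀ X Y, X ⊆ Y → ρ X ≤ ρ Y := by
    intro X Y hXY
    apply Finset.sum_le_sum
    intro i _
    apply Nat.sub_le_sub_right
    apply hRmono i.1.1 i.1.2
    apply Finset.union_subset_union_right
    apply Finset.image_subset_image
    exact Finset.filter_subset_filter _ hXY
  have hρsub : ∀ X Y, ρ (X ∪ Y) + ρ (X ∩ Y) ≤ ρ X + ρ Y := by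
    intro X Y
    simp only [ρ]
    rw [← Finset.sum_add_distrib, ← Finset.sum_add_distrib]
    apply Finset.sum_le_sum
    intro i _
    have e1 : A1 ∪ sec (X ∪ Y) i = (A1 ∪ sec X i) ∪ (A1 ∪ sec Y i) := by
      ext x
      simp only [sec, Finset.mem_union, Finset.mem_image, Finset.mem_filter]
      constructor
      · rintro (h | ⟨w, ⟨h | h, h2⟩, h3⟩)
        · exact Or.inl (Or.inl h)
        · exact Or.inl (Or.inr ⟨w, ⟨h, h2⟩, h3⟩)
        · exact Or.inr (Or.inr ⟨w, ⟨h, h2⟩, h3⟩)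
      · rintro ((h | ⟨w, ⟨h, h2⟩, h3⟩) | (h | ⟨w, ⟨h, h2⟩, h3⟩))
        · exact Or.inl h
        · exact Or.inr ⟨w, ⟨Or.inl h, h2⟩, h3⟩
        · exact Or.inl h
        · exact Or.inr ⟨w, ⟨Or.inr h, h2⟩, h3⟩
    have e2 : A1 ∪ sec (X ∩ Y) i ⊆ (A1 ∪ sec X i) ∩ (A1 ∪ sec Y i) := by
      intro x
      simp only [sec, Finset.mem_union, Finset.mem_image, Finset.mem_filter, Finset.mem_inter]
      rintro (h | ⟨w, ⟨⟨h, h'⟩, h2⟩, h3⟩)
      · exact ⟨Or.inl h, Or.inl h⟩
      · exact ⟨Or.inr ⟨w, ⟨h, h2⟩, h3⟩, Or.inr ⟨w, ⟨h', h2⟩, h3⟩⟩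
    have h1 := hRsub i.1.1 i.1.2 (A1 ∪ sec X i) (A1 ∪ sec Y i)
    have h2 := hRmono i.1.1 i.1.2 _ _ e2
    have h3 := hRmono i.1.1 i.1.2 A1 (A1 ∪ sec X i) Finset.subset_union_left
    have h4 := hRmono i.1.1 i.1.2 A1 (A1 ∪ sec Y i) Finset.subset_union_left
    have h5 := hRmono i.1.1 i.1.2 A1 (A1 ∪ sec (X ∩ Y) i) Finset.subset_union_left
    rw [e1]
    have h6 := hRmono i.1.1 i.1.2 A1 ((A1 ∪ sec X i) ∪ (A1 ∪ sec Y i))
      (Finset.subset_union_left.trans Finset.subset_union_left)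
    omega
  let Xf : V → Finset (V × (P × Fin C)) := fun e => Finset.univ.image (fun i => (e, i))
  have hsecK : ∀ K : Finset V, ∀ i, sec (K.biUnion Xf) i = K := by
    intro K i
    ext x
    simp only [sec, Xf, Finset.mem_image, Finset.mem_filter, Finset.mem_biUnion,
      Finset.mem_univ, true_and]
    constructor
    · rintro ⟨w, ⟨⟨e, he, j, rfl⟩, h2⟩, h3⟩
      simpa [← h3] using he
    · intro hx
      exact ⟨(x, i), ⟨⟨x, hx, i, rfl⟩, rfl⟩, rfl⟩
  have hcond : ∀ K ⊆ A \ A1, K.card ≤ ρ (K.biUnion Xf) := by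
    intro K hK
    have hKA : K ⊆ A := hK.trans Finset.sdiff_subset
    have hdis : Disjoint A1 K := by
      rw [Finset.disjoint_left]
      intro a ha haK
      have := hK haK
      simp only [Finset.mem_sdiff] at this
      exact this.2 ha
    have h1 := hA1max (A1 ∪ K) (Finset.mem_powerset.mpr (Finset.union_subset hA1 hKA))
    simp only [Φ] at h1
    rw [Finset.card_union_of_disjoint hdis] at h1
    have h2 : ρ (K.biUnion Xf) = C * ∑ p ∈ P, (R p (A1 ∪ K) - R p A1) := by
      simp only [ρ, hsecK]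
      rw [Fintype.sum_prod_type]
      simp only [Finset.sum_const, Finset.card_univ, Fintype.card_fin, smul_eq_mul]
      rw [← Finset.mul_sum]
      congr 1
      exact Finset.sum_coe_sort P (fun p => R p (A1 ∪ K) - R p A1)
    have h3 : ((C * ∑ p ∈ P, (R p (A1 ∪ K) - R p A1) : ℕ) : ℤ) =
        C * ∑ p ∈ P, (R p (A1 ∪ K) : ℤ) - C * ∑ p ∈ P, (R p A1 : ℤ) := by
      push_cast
      rw [← mul_sub, ← Finset.sum_sub_distrib]
      congr 1
      apply Finset.sum_congr rfl
      intro p hp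
      rw [Nat.cast_sub (hRmono p hp _ _ Finset.subset_union_left)]
    have h4 : (K.card : ℤ) ≤ ((C * ∑ p ∈ P, (R p (A1 ∪ K) - R p A1) : ℕ) : ℤ) := by
      rw [h3]
      push_cast at h1
      linarith
    rw [h2]
    exact_mod_cast h4
  have : Nonempty (V × (P × Fin C)) := ⟨(0, hne.some)⟩
  obtain ⟨f, hf1, hf2⟩ := rado ρ hρ0 hρmono hρsub (A \ A1) Xf hcond
  let κ0 : V → P × Fin C := fun v => (f v).2
  have hfeq : ∀ e ∈ A \ A1, f e = (e, κ0 e) := by
    intro e he
    have := hf1 e he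
    simp only [Xf, Finset.mem_image, Finset.mem_univ, true_and] at this
    obtain ⟨i, hi⟩ := this
    simp only [κ0, ← hi]
  -- independence of colour classes over `A1`
  have hclass : ∀ i : P × Fin C,
      R i.1.1 A1 + ((A \ A1).filter (fun v => κ0 v = i)).card ≤
        R i.1.1 (A1 ∪ (A \ A1).filter (fun v => κ0 v = i)) := by
    intro i
    set B := (A \ A1).filter (fun v => κ0 v = i) with hB
    have h1 := hf2 B (Finset.filter_subset _ _)
    have h2 : ∀ j, sec (B.image f) j = if j = i then B else ∅ := by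
      intro j
      ext x
      simp only [sec, Finset.mem_image, Finset.mem_filter]
      constructor
      · rintro ⟨w, ⟨⟨e, he, rfl⟩, h2⟩, h3⟩
        have heA : e ∈ A \ A1 := (Finset.mem_filter.mp he).1
        have hei : κ0 e = i := (Finset.mem_filter.mp he).2
        rw [hfeq e heA] at h2 h3
        simp only at h2 h3
        rw [← h2, hei, if_pos rfl, ← h3]
        exact he
      · intro hx
        split_ifs at hx with hji
        · have heA : x ∈ A \ A1 := (Finset.mem_filter.mp hx).1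
          have hei : κ0 x = i := (Finset.mem_filter.mp hx).2
          refine ⟨f x, ⟨⟨x, hx, rfl⟩, ?_⟩, ?_⟩
          · rw [hfeq x heA, hji]; exact hei
          · rw [hfeq x heA]
        · exact absurd hx (Finset.notMem_empty x)
    have h3 : ρ (B.image f) = R i.1.1 (A1 ∪ B) - R i.1.1 A1 := by
      simp only [ρ]
      rw [Finset.sum_eq_single i]
      · rw [h2 i, if_pos rfl]
      · intro j _ hj
        rw [h2 j, if_neg hj]
        simp
      · intro h
        exact absurd (Finset.mem_univ i) h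
    rw [h3] at h1
    have h4 := hRmono i.1.1 i.1.2 A1 (A1 ∪ B) Finset.subset_union_left
    omega
  refine ⟨fun v => if v ∈ A1 then κ1 v else κ0 v, fun i => ?_⟩
  have : Fact i.1.1.Prime := ⟨hP i.1.1 i.1.2⟩
  intro s ξ hs hξ hsum
  set B := (A \ A1).filter (fun v => κ0 v = i) with hB
  have hsB : s ⊆ A1 ∪ B := by
    intro v hv
    have hv' := hs hv
    simp only [Set.mem_ofPred_eq] at hv'
    rw [Finset.mem_union]
    by_cases hv1 : v ∈ A1
    · exact Or.inl hv1
    · right
      rw [hB, Finset.mem_filter, Finset.mem_sdiff]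
      refine ⟨⟨hv'.1, hv1⟩, ?_⟩
      simpa [hv1] using hv'.2
  have hout : ∀ v ∈ s, v ∉ A1 → ξ v = 0 := by
    intro v hv hv1
    have hvB : v ∈ B := by
      rcases Finset.mem_union.mp (hsB hv) with h | h
      · exact absurd h hv1
      · exact h
    exact rel_contra i.1.1 A A1 B hA1 ((Finset.filter_subset _ _).trans Finset.sdiff_subset)
      (hclass i) s ξ hsB hξ hsum v hv hvB hv1
  have hin := hκ1 i (s.filter (fun v => v ∈ A1)) ξ (by
      intro v hv
      simp only [Finset.coe_filter, Set.mem_ofPred_eq] at hv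
      have hv' := hs hv.1
      simp only [Set.mem_ofPred_eq, hv.2, if_true] at hv'
      exact ⟨hv.2, hv'.2⟩)
    (fun n hn => hξ n (Finset.mem_filter.mp hn).1)
    (by
      have hs' : ∑ n ∈ s.filter (fun v => v ∈ A1), ξ n • n = ∑ n ∈ s, ξ n • n := by
        rw [Finset.sum_filter]
        apply Finset.sum_congr rfl
        intro v hv
        split_ifs with h
        · rfl
        · rw [hout v hv h, zero_smul]
      rw [hs', hsum])
  intro n hn
  by_cases hn1 : n ∈ A1
  · exact hin n (Finset.mem_filter.mpr ⟨hn, hn1⟩)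
  · exact hout n hn hn1

end

end Pool.Agent.Lib.MP_080bf7_an
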