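import Mathlib
import Pool.Agent.Lib.MP_080bf7_an.Cover

/-! The order of a finitely generated group of exponent `m` in terms of the dimensions `D`. -/

namespace Pool.Agent.Lib.MP_080bf7_an

set_option linter.unusedSectionVars false

open Finset

section

variable {V : Type*} [AddCommGroup V] [DecidableEq V]

theorem exists_gens (p : ℕ) [Fact p.Prime] (A : Finset V) :
    ∃ T : Finset V, T ⊆ A ∧ T.card ≤ D p A ∧
      ∀ h ∈ AddSubgroup.closure (A : Set V), ∃ k ∈ AddSubgroup.closure (T : Set V),
        ∃ h' ∈ AddSubgroup.closure (A : Set V), h = k + p • h' := by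
  classical
  obtain ⟨b, hbs, hspan, hli⟩ := exists_linearIndependent (ZMod p) (phi p A '' (A : Set V))
  have hAfin : (phi p A '' (A : Set V)).Finite := (Finset.finite_toSet A).image _
  have hbfin : b.Finite := hAfin.subset hbs
  -- choose preimages
  obtain ⟨T, hTA, hTb⟩ : ∃ T : Finset V, T ⊆ A ∧ Set.BijOn (phi p A) (T : Set V) b := by
    obtain ⟨u, huA, hu⟩ := Set.SurjOn.exists_bijOn_subset (f := phi p A) (s := (A : Set V)) (t := b)
      (by intro x hx; exact hbs hx)
    have hufin : u.Finite := (Finset.finite_toSet A).subset huA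
    refine ⟨hufin.toFinset, ?_, ?_⟩
    · intro x hx
      have := huA (hufin.mem_toFinset.mp hx)
      exact_mod_cast this
    · rw [hufin.coe_toFinset]
      exact hu
  refine ⟨T, hTA, ?_, ?_⟩
  · have h1 : T.card = b.ncard := by
      rw [← Set.ncard_coe_finset T]
      rw [← hTb.image_eq]
      exact hTb.injOn.ncard_image.symm
    have h2 : D p A = b.ncard := by
      unfold D rk
      rw [← hspan]
      have := hbfin.fintype
      rw [finrank_span_set_eq_card hli]
      rw [Set.ncard_eq_toFinset_card']
    rw [h1, h2]
  · intro h hh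
    -- `phi h` lies in the span of the image of `T`
    have h1 : QuotientAddGroup.mk' (pPart p A) ⟨h, hh⟩ ∈
        Submodule.span (ZMod p) (phi p A '' (A : Set V)) := by
      have key : ∀ x (hx : x ∈ AddSubgroup.closure (A : Set V)),
          QuotientAddGroup.mk' (pPart p A) ⟨x, hx⟩ ∈
            Submodule.span (ZMod p) (phi p A '' (A : Set V)) := by
        intro x hx
        induction hx using AddSubgroup.closure_induction with
        | mem x hx' =>
          apply Submodule.subset_span
          exact ⟨x, hx', phi_of_mem p A (AddSubgroup.subset_closure hx')⟩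
        | zero => 
          have : (⟨0, AddSubgroup.zero_mem _⟩ : AddSubgroup.closure (A : Set V)) = 0 := rfl
          rw [this, map_zero]
          exact Submodule.zero_mem _
        | add x y hx hy ihx ihy =>
          have : (⟨x + y, AddSubgroup.add_mem _ hx hy⟩ : AddSubgroup.closure (A : Set V)) =
            ⟨x, hx⟩ + ⟨y, hy⟩ := rfl
          rw [this, map_add]
          exact Submodule.add_mem _ ihx ihy
        | neg x hx ihx =>
          have : (⟨-x, AddSubgroup.neg_mem _ hx⟩ : AddSubgroup.closure (A : Set V)) =
            -⟨x, hx⟩ := rfl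
          rw [this, map_neg]
          exact Submodule.neg_mem _ ihx
      exact key h hh
    rw [← hspan, ← hTb.image_eq] at h1
    have hTA' : AddSubgroup.closure (T : Set V) ≤ AddSubgroup.closure (A : Set V) :=
      AddSubgroup.closure_mono (by exact_mod_cast hTA)
    let S : AddSubgroup (QW p A) :=
      ((AddSubgroup.closure (T : Set V)).addSubgroupOf (AddSubgroup.closure (A : Set V))).map
        (QuotientAddGroup.mk' (pPart p A))
    have hS : Submodule.span (ZMod p) (phi p A '' (T : Set V)) ≤
        AddSubgroup.toZModSubmodule p S := by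
      rw [Submodule.span_le]
      rintro _ ⟨t, ht, rfl⟩
      have htT : t ∈ AddSubgroup.closure (T : Set V) := AddSubgroup.subset_closure ht
      rw [phi_of_mem p A (hTA' htT)]
      show _ ∈ S
      exact ⟨⟨t, hTA' htT⟩, htT, rfl⟩
    have h2 := hS h1
    obtain ⟨k, hk, hkeq⟩ : _ ∈ S := h2
    have h3 : (⟨h, hh⟩ : AddSubgroup.closure (A : Set V)) - k ∈ pPart p A := by
      have : QuotientAddGroup.mk' (pPart p A) (⟨h, hh⟩ - k) = 0 := by
        rw [map_sub, hkeq, sub_self]
      exact (QuotientAddGroup.eq_zero_iff _).mp this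
    obtain ⟨h', hh'⟩ := h3
    refine ⟨k.1, hk, h'.1, h'.2, ?_⟩
    have := congrArg Subtype.val hh'
    simp only [nsmulAddMonoidHom_apply, AddSubgroup.coe_nsmul, AddSubgroup.coe_sub] at this
    rw [this]
    abel

theorem card_closure_le (m : ℕ) [NeZero m] (hm : ∀ x : V, m • x = 0) (A : Finset V) :
    Finite (AddSubgroup.closure (A : Set V)) ∧
      Nat.card (AddSubgroup.closure (A : Set V)) ≤ m ^ (∑ p ∈ m.primeFactors, D p A) := by
  classical
  have hex : ∀ p : ℕ, ∃ T : Finset V, p ∈ m.primeFactors → (T ⊆ A ∧ T.card ≤ D p A ∧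
      ∀ h ∈ AddSubgroup.closure (A : Set V), ∃ k ∈ AddSubgroup.closure (T : Set V),
        ∃ h' ∈ AddSubgroup.closure (A : Set V), h = k + p • h') := by
    intro p
    by_cases hp : p ∈ m.primeFactors
    · have : Fact p.Prime := ⟨Nat.prime_of_mem_primeFactors hp⟩
      obtain ⟨T, hT⟩ := exists_gens p A
      exact ⟨T, fun _ => hT⟩
    · exact ⟨∅, fun h => absurd h hp⟩
  choose T hT using hex
  let U : Finset V := m.primeFactors.biUnion T
  have hUcard : U.card ≤ ∑ p ∈ m.primeFactors, D p A :=
    Finset.card_biUnion_le.trans (Finset.sum_le_sum fun p hp => (hT p hp).2.1)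
  have hlist : ∀ L : List ℕ, (∀ p ∈ L, p ∈ m.primeFactors) →
      ∀ h ∈ AddSubgroup.closure (A : Set V), ∃ k ∈ AddSubgroup.closure (U : Set V),
        ∃ h' ∈ AddSubgroup.closure (A : Set V), h = k + L.prod • h' := by
    intro L
    induction L with
    | nil =>
      intro _ h hh
      exact ⟨0, AddSubgroup.zero_mem _, h, hh, by simp⟩
    | cons p L ih =>
      intro hL h hh
      obtain ⟨k, hk, h', hh', heq⟩ := ih (fun q hq => hL q (List.mem_cons_of_mem _ hq)) h hh
      have hp := hL p List.mem_cons_self
      obtain ⟨k', hk', h'', hh'', heq'⟩ := (hT p hp).2.2 h' hh'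
      refine ⟨k + L.prod • k', ?_, h'', hh'', ?_⟩
      · apply AddSubgroup.add_mem _ hk
        apply AddSubgroup.nsmul_mem
        apply AddSubgroup.closure_mono _ hk'
        intro x hx
        simp only [U, Finset.coe_biUnion, Set.mem_iUnion]
        exact ⟨p, by exact_mod_cast hp, hx⟩
      · rw [heq, heq', smul_add, add_assoc, List.prod_cons, smul_smul, mul_comm]
  have hle : AddSubgroup.closure (A : Set V) ≤ AddSubgroup.closure (U : Set V) := by
    intro h hh
    obtain ⟨k, hk, h', hh', heq⟩ := hlist m.primeFactorsList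
      (fun p hp => by simpa using hp) h hh
    rw [Nat.prod_primeFactorsList (NeZero.ne m), hm, add_zero] at heq
    rw [heq]
    exact hk
  let inst : Module (ZMod m) V := AddCommGroup.zmodModule hm
  let g : (U → ZMod m) →+ V :=
    { toFun := fun c => ∑ u : U, c u • (u : V)
      map_zero' := by simp
      map_add' := by
        intro c d
        simp only [Pi.add_apply, add_smul, Finset.sum_add_distrib] }
  have hg : AddSubgroup.closure (U : Set V) ≤ g.range := by
    rw [AddSubgroup.closure_le]
    intro u hu
    have huU : u ∈ U := by exact_mod_cast hu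
    refine ⟨Pi.single ⟨u, huU⟩ 1, ?_⟩
    show ∑ w : U, (Pi.single (⟨u, huU⟩ : U) (1 : ZMod m) : U → ZMod m) w • (w : V) = u
    rw [Finset.sum_eq_single ⟨u, huU⟩]
    · simp
    · intro w _ hw
      simp [Pi.single_eq_of_ne hw]
    · intro h
      exact absurd (Finset.mem_univ _) h
  have hfin : Finite g.range := by
    have : Finite (Set.range g) := Set.finite_range g
    exact this
  refine ⟨Finite.of_injective
      (fun x : AddSubgroup.closure (A : Set V) => (⟨x.1, hg (hle x.2)⟩ : g.range))
      (by
        intro x y hxy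
        apply Subtype.ext
        exact congrArg (fun z : g.range => (z : V)) hxy), ?_⟩
  have h1 : Nat.card (AddSubgroup.closure (A : Set V)) ≤ Nat.card g.range := by
    exact Nat.card_le_card_of_injective
      (fun x : AddSubgroup.closure (A : Set V) => (⟨x.1, hg (hle x.2)⟩ : g.range))
      (by
        intro x y hxy
        apply Subtype.ext
        exact congrArg (fun z : g.range => (z : V)) hxy)
  have h2 : Nat.card g.range ≤ Nat.card (U → ZMod m) :=
    Nat.card_le_card_of_surjective g.rangeRestrict g.rangeRestrict_surjective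
  have h3 : Nat.card (U → ZMod m) = m ^ U.card := by
    simp [Nat.card_eq_fintype_card, ZMod.card]
  calc Nat.card (AddSubgroup.closure (A : Set V)) ≤ m ^ U.card := by
        rw [← h3]; exact h1.trans h2
    _ ≤ m ^ (∑ p ∈ m.primeFactors, D p A) :=
        Nat.pow_le_pow_right (NeZero.pos m) hUcard

end

end Pool.Agent.Lib.MP_080bf7_an
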