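import Mathlib
import Pool.Agent.Lib.MP_080bf7_an.Char
import Pool.Agent.Lib.MP_080bf7_an.Size

/-! A subgaussian set satisfies the dimension condition. -/

namespace Pool.Agent.Lib.MP_080bf7_an

set_option linter.unusedSectionVars false

open MeasureTheory

variable {m : ℕ} [NeZero m]

/-- the annihilator of a finite set of characters -/
def annih (m : ℕ) (J : Finset (Ghat m)) : Set (G m) := {t | ∀ n ∈ J, character m n t = 1}

theorem measurableSet_annih (J : Finset (Ghat m)) : MeasurableSet (annih m J) := by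
  have : annih m J = ⋂ n ∈ J, (character m n) ⁻¹' {1} := by
    ext t; simp [annih]
  rw [this]
  exact Finset.measurableSet_biInter _ fun n _ =>
    (continuous_char n).measurable (measurableSet_singleton 1)

theorem char_closure (J : Finset (Ghat m)) (t : G m) (ht : t ∈ annih m J) :
    ∀ n ∈ AddSubgroup.closure (J : Set (Ghat m)), character m n t = 1 := by
  intro n hn
  induction hn using AddSubgroup.closure_induction with
  | mem x hx => exact ht x (by exact_mod_cast hx)
  | zero => exact char_zero t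
  | add x y _ _ ihx ihy => rw [char_add, ihx, ihy, one_mul]
  | neg x _ ih => rw [char_neg, ih, map_one]

theorem measure_annih (J : Finset (Ghat m)) (hfin : Finite (AddSubgroup.closure (J : Set (Ghat m)))) :
    (Nat.card (AddSubgroup.closure (J : Set (Ghat m))) : ℝ) * (haarG m).real (annih m J) = 1 := by
  classical
  set H := AddSubgroup.closure (J : Set (Ghat m)) with hH
  have hfint : Fintype H := Fintype.ofFinite H
  have key : ∀ t : G m, ∑ n : H, character m n.1 t =
      (annih m J).indicator (fun _ => (Nat.card H : ℂ)) t := by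
    intro t
    by_cases ht : t ∈ annih m J
    · rw [Set.indicator_of_mem ht]
      have : ∀ n : H, character m n.1 t = 1 := fun n => char_closure J t ht n.1 n.2
      simp [this, Nat.card_eq_fintype_card]
    · rw [Set.indicator_of_notMem ht]
      have hex : ∃ n ∈ J, character m n t ≠ 1 := by
        by_contra hcon
        push Not at hcon
        exact ht hcon
      obtain ⟨n0, hn0, hne⟩ := hex
      have hn0H : n0 ∈ H := AddSubgroup.subset_closure (by exact_mod_cast hn0)
      have h1 : ∑ n : H, character m n.1 t = character m n0 t * ∑ n : H, character m n.1 t := by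
        rw [Finset.mul_sum]
        rw [← Equiv.sum_comp (Equiv.addRight (⟨n0, hn0H⟩ : H))
          (fun n : H => character m n.1 t)]
        apply Finset.sum_congr rfl
        intro n _
        simp only [Equiv.coe_addRight, AddSubgroup.coe_add, char_add]
        ring
      have h2 : (character m n0 t - 1) * ∑ n : H, character m n.1 t = 0 := by
        rw [sub_mul, one_mul, ← h1, sub_self]
      rcases mul_eq_zero.mp h2 with h3 | h3
      · exact absurd (sub_eq_zero.mp h3) hne
      · exact h3
  have h1 : ∫ t, ∑ n : H, character m n.1 t ∂(haarG m) = 1 := by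
    rw [integral_finsetSum]
    · simp only [integral_char]
      rw [Finset.sum_eq_single (0 : H)]
      · simp
      · intro b _ hb
        have : b.1 ≠ 0 := fun h => hb (Subtype.ext h)
        simp [this]
      · intro h
        exact absurd (Finset.mem_univ _) h
    · intro n _
      exact integrable_of_cont (continuous_char _)
  simp only [key] at h1
  rw [integral_indicator_const _ (measurableSet_annih J)] at h1
  have h2 : (((haarG m).real (annih m J) * (Nat.card H : ℝ) : ℝ) : ℂ) = 1 := by
    rw [← h1]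
    simp
  have h3 : (haarG m).real (annih m J) * (Nat.card H : ℝ) = 1 := by exact_mod_cast h2
  rw [mul_comm]; exact h3

/-- the set in the definition of the norm -/
def psiSet (m : ℕ) [NeZero m] (f : G m → ℂ) : Set ℝ :=
  {c : ℝ | 0 < c ∧
    ∫⁻ t, ENNReal.ofReal (Real.exp (‖f t‖ ^ 2 / c ^ 2)) ∂(haarG m) ≤ ENNReal.ofReal (Real.exp 1)}

theorem psiSet_nonempty {f : G m → ℂ} {B : ℝ} (hB : 0 < B) (h : ∀ t, ‖f t‖ ≤ B) :
    B ∈ psiSet m f := by
  refine ⟨hB, ?_⟩
  calc ∫⁻ t, ENNReal.ofReal (Real.exp (‖f t‖ ^ 2 / B ^ 2)) ∂(haarG m)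
      ≤ ∫⁻ _, ENNReal.ofReal (Real.exp 1) ∂(haarG m) := by
        apply lintegral_mono
        intro t
        apply ENNReal.ofReal_le_ofReal
        apply Real.exp_le_exp.mpr
        rw [div_le_one (by positivity)]
        exact pow_le_pow_left₀ (norm_nonneg _) (h t) 2
    _ = ENNReal.ofReal (Real.exp 1) := by simp

theorem psiSet_mono {f : G m → ℂ} {c c' : ℝ} (hc : c ∈ psiSet m f) (hcc : c ≤ c') :
    c' ∈ psiSet m f := by
  obtain ⟨hc0, hc1⟩ := hc
  refine ⟨hc0.trans_le hcc, le_trans ?_ hc1⟩
  apply lintegral_mono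
  intro t
  apply ENNReal.ofReal_le_ofReal
  apply Real.exp_le_exp.mpr
  apply div_le_div_of_nonneg_left (by positivity) (by positivity)
  exact pow_le_pow_left₀ hc0.le hcc 2

theorem smul_zero' (x : Ghat m) : m • x = 0 := by
  ext k
  simp

theorem dim_condition (Λ : Set (Ghat m)) (h0 : (0 : Ghat m) ∉ Λ) (h : IsSubgaussian m Λ) :
    ∃ C : ℕ, ∀ J : Finset (Ghat m), (J : Set (Ghat m)) ⊆ Λ → J.Nonempty →
      J.card < C * ∑ p ∈ m.primeFactors, D p J := by
  classical
  obtain ⟨C0, hC0⟩ := h
  set C1 : ℝ := max C0 0 + 1 with hC1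
  have hC1pos : 0 < C1 := by positivity
  have hC0lt : C0 < C1 := by
    have := le_max_left C0 0
    linarith
  refine ⟨⌊C1 ^ 2 * (1 + Real.log m)⌋₊ + 1, fun J hJ hJne => ?_⟩
  have hJpos : (0 : ℝ) < J.card := by exact_mod_cast Finset.card_pos.mpr hJne
  -- the test function
  let a : Ghat m →₀ ℂ := Finsupp.onFinset J (fun n => if n ∈ J then 1 else 0) (by
    intro n hn
    by_contra hcon
    simp [hcon] at hn)
  have hasupp : a.support = J := by
    ext n
    simp [a]
  have haval : ∀ n ∈ J, a n = 1 := by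
    intro n hn
    simp [a, hn]
  have h1 := hC0 a (by rw [hasupp]; exact hJ)
  rw [hasupp] at h1
  have h2 : (∑ n ∈ J, ‖a n‖ ^ 2) = J.card := by
    rw [Finset.sum_congr rfl (fun n hn => by rw [haval n hn])]
    simp
  rw [h2] at h1
  set f : G m → ℂ := fun t => ∑ n ∈ J, a n * character m n t with hf
  have hfb : ∀ t, ‖f t‖ ≤ J.card := by
    intro t
    calc ‖f t‖ ≤ ∑ n ∈ J, ‖a n * character m n t‖ := norm_sum_le _ _
      _ = ∑ n ∈ J, (1 : ℝ) := by
          apply Finset.sum_congr rfl
          intro n hn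
          rw [norm_mul, haval n hn, norm_char]; simp
      _ = J.card := by simp
  have hne : (psiSet m f).Nonempty := ⟨_, psiSet_nonempty hJpos hfb⟩
  have hsqrt : 0 < Real.sqrt J.card := Real.sqrt_pos.mpr hJpos
  have h3 : psi2Norm m f < C1 * Real.sqrt J.card :=
    lt_of_le_of_lt h1 (mul_lt_mul_of_pos_right hC0lt hsqrt)
  obtain ⟨c', hc'mem, hc'lt⟩ := exists_lt_of_csInf_lt hne h3
  have h4 : C1 * Real.sqrt J.card ∈ psiSet m f := psiSet_mono hc'mem hc'lt.le
  obtain ⟨hfinH, hcardH⟩ := card_closure_le m (fun x : Ghat m => smul_zero' x) J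
  have hmeas := measure_annih J hfinH
  set T := annih m J with hT
  set Hc : ℝ := (Nat.card (AddSubgroup.closure (J : Set (Ghat m))) : ℝ) with hHc
  -- lower bound for the integral
  have h5 : ENNReal.ofReal (Real.exp (J.card / C1 ^ 2)) * (haarG m) T ≤
      ENNReal.ofReal (Real.exp 1) := by
    refine le_trans ?_ h4.2
    rw [← setLIntegral_const]
    refine le_trans ?_ (setLIntegral_le_lintegral T _)
    apply setLIntegral_mono' (measurableSet_annih J)
    intro t ht
    apply ENNReal.ofReal_le_ofReal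
    apply Real.exp_le_exp.mpr
    have hft : ‖f t‖ = J.card := by
      have : f t = J.card := by
        simp only [hf]
        rw [Finset.sum_congr rfl (fun n hn => by rw [haval n hn, ht n hn, mul_one])]
        simp
      rw [this]
      simp
    rw [hft, mul_pow, Real.sq_sqrt hJpos.le]
    apply le_of_eq
    field_simp
  have h6 : Real.exp (J.card / C1 ^ 2) * (haarG m).real T ≤ Real.exp 1 := by
    have h7 := ENNReal.toReal_mono (by simp) h5
    rw [ENNReal.toReal_mul, ENNReal.toReal_ofReal (Real.exp_pos _).le,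
      ENNReal.toReal_ofReal (Real.exp_pos _).le] at h7
    exact h7
  have hHcpos : 0 < Hc := by
    rcases lt_or_eq_of_le (show (0 : ℝ) ≤ Hc by positivity) with h | h
    · exact h
    · rw [← h, zero_mul] at hmeas
      exact absurd hmeas (by norm_num)
  have h7 : Real.exp (J.card / C1 ^ 2) ≤ Real.exp 1 * Hc := by
    calc Real.exp (J.card / C1 ^ 2) = Real.exp (J.card / C1 ^ 2) * (Hc * (haarG m).real T) := by
          rw [hmeas, mul_one]
      _ = (Real.exp (J.card / C1 ^ 2) * (haarG m).real T) * Hc := by ring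
      _ ≤ Real.exp 1 * Hc := mul_le_mul_of_nonneg_right h6 hHcpos.le
  set Dsum := ∑ p ∈ m.primeFactors, D p J with hDsum
  have hmpos : (0 : ℝ) < m := by exact_mod_cast NeZero.pos m
  have h8 : Hc ≤ (m : ℝ) ^ Dsum := by
    rw [hHc]
    exact_mod_cast hcardH
  have h9 : (J.card : ℝ) / C1 ^ 2 ≤ 1 + Dsum * Real.log m := by
    have h10 := Real.log_le_log (Real.exp_pos _) (h7.trans
      (mul_le_mul_of_nonneg_left h8 (Real.exp_pos 1).le))
    rw [Real.log_exp, Real.log_mul (Real.exp_pos 1).ne' (by positivity), Real.log_exp,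
      Real.log_pow] at h10
    exact h10
  -- `Dsum ≥ 1`
  have hD1 : 1 ≤ Dsum := by
    by_contra hcon
    have hD0 : Dsum = 0 := by omega
    rw [hD0, pow_zero] at hcardH
    obtain ⟨n, hn⟩ := hJne
    have hnH : n ∈ AddSubgroup.closure (J : Set (Ghat m)) :=
      AddSubgroup.subset_closure (by exact_mod_cast hn)
    have hsub : Subsingleton (AddSubgroup.closure (J : Set (Ghat m))) :=
      Finite.card_le_one_iff_subsingleton.mp hcardH
    have : (⟨n, hnH⟩ : AddSubgroup.closure (J : Set (Ghat m))) = 0 := Subsingleton.elim _ _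
    have hn0 : n = 0 := congrArg Subtype.val this
    exact h0 (hn0 ▸ hJ (by exact_mod_cast hn))
  have hlog : 0 ≤ Real.log m := Real.log_natCast_nonneg m
  have h11 : (J.card : ℝ) ≤ C1 ^ 2 * (1 + Real.log m) * Dsum := by
    rw [div_le_iff₀ (by positivity)] at h9
    have hD1' : (1 : ℝ) ≤ Dsum := by exact_mod_cast hD1
    have : 1 + (Dsum : ℝ) * Real.log m ≤ (1 + Real.log m) * Dsum := by nlinarith
    calc (J.card : ℝ) ≤ (1 + Dsum * Real.log m) * C1 ^ 2 := h9
      _ ≤ ((1 + Real.log m) * Dsum) * C1 ^ 2 := mul_le_mul_of_nonneg_right this (by positivity)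
      _ = C1 ^ 2 * (1 + Real.log m) * Dsum := by ring
  have h12 : C1 ^ 2 * (1 + Real.log m) < (⌊C1 ^ 2 * (1 + Real.log m)⌋₊ + 1 : ℕ) := by
    push_cast
    exact Nat.lt_floor_add_one _
  have hDpos : (0 : ℝ) < Dsum := by exact_mod_cast hD1
  have h13 : (J.card : ℝ) < ((⌊C1 ^ 2 * (1 + Real.log m)⌋₊ + 1 : ℕ) : ℝ) * Dsum :=
    h11.trans_lt (mul_lt_mul_of_pos_right h12 hDpos)
  exact_mod_cast h13

end Pool.Agent.Lib.MP_080bf7_an
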