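import Mathlib
import Pool.Agent.Lib.MP_080bf7_an.Lower

/-! A finite union of quasi-independent sets is subgaussian. -/

namespace Pool.Agent.Lib.MP_080bf7_an

open MeasureTheory

variable {m : ℕ} [NeZero m]

/-- coefficients of the Riesz factor -/
noncomputable def rcoef (α : ℝ) (β : ℂ) (j : ℤ) : ℂ :=
  if j = 0 then (α : ℂ) else if j = 1 then β else (starRingEnd ℂ) β

theorem riesz_factor (α : ℝ) (β : ℂ) (n : Ghat m) (t : G m) :
    ((α + 2 * (β * character m n t).re : ℝ) : ℂ) =
      ∑ j ∈ ({-1, 0, 1} : Finset ℤ), rcoef α β j * character m (j • n) t := by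
  have h : (2 * ((β * character m n t).re : ℝ) : ℂ) =
      β * character m n t + (starRingEnd ℂ) (β * character m n t) := by
    rw [Complex.add_conj]
    push_cast
    ring
  push_cast
  rw [h]
  rw [Finset.sum_insert (by decide), Finset.sum_insert (by decide), Finset.sum_singleton]
  simp only [rcoef]
  norm_num
  rw [char_zero, char_neg]
  ring

theorem riesz_integral (S : Finset (Ghat m)) (hS : QI (S : Set (Ghat m)))
    (α : Ghat m → ℝ) (β : Ghat m → ℂ) :
    ∫ t, ∏ n ∈ S, (α n + 2 * (β n * character m n t).re) ∂(haarG m) = ∏ n ∈ S, α n := by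
  classical
  have h1 : ∀ t : G m, ((∏ n ∈ S, (α n + 2 * (β n * character m n t).re) : ℝ) : ℂ) =
      ∑ p ∈ S.pi (fun _ => ({-1, 0, 1} : Finset ℤ)),
        (∏ x ∈ S.attach, rcoef (α x.1) (β x.1) (p x.1 x.2)) *
          character m (∑ x ∈ S.attach, p x.1 x.2 • x.1) t := by
    intro t
    rw [Complex.ofReal_prod]
    rw [Finset.prod_congr rfl (fun n _ => riesz_factor (α n) (β n) n t)]
    rw [Finset.prod_sum]
    apply Finset.sum_congr rfl
    intro p _
    rw [Finset.prod_mul_distrib, char_sum]
  have h2 : ((∫ t, ∏ n ∈ S, (α n + 2 * (β n * character m n t).re) ∂(haarG m) : ℝ) : ℂ) =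
      ∏ n ∈ S, (α n : ℂ) := by
    rw [← integral_complex_ofReal]
    simp only [h1]
    rw [integral_finsetSum _ (fun p _ => (integrable_of_cont (continuous_char _)).const_mul _)]
    simp only [integral_const_mul, integral_char]
    rw [Finset.sum_eq_single (fun _ _ => (0 : ℤ))]
    · simp only [zero_smul, Finset.sum_const_zero, if_true, mul_one]
      simp only [rcoef, if_true]
      rw [Finset.prod_attach S (fun x => (α x : ℂ))]
    · intro p hp hne
      rw [if_neg, mul_zero]
      intro hcon
      apply hne
      -- use quasi-independence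
      let ξ : Ghat m → ℤ := fun n => if h : n ∈ S then p n h else 0
      have hξ : ∀ n (h : n ∈ S), ξ n = p n h := fun n h => by simp [ξ, h]
      have h3 := hS S ξ (Set.Subset.refl _)
        (by
          intro n hn
          rw [hξ n hn]
          have := Finset.mem_pi.mp hp n hn
          simpa using this)
        (by
          rw [← Finset.sum_attach]
          rw [← hcon]
          apply Finset.sum_congr rfl
          intro x _
          rw [hξ x.1 x.2])
      funext n hn
      rw [← hξ n hn]
      exact h3 n hn
    · intro h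
      exact absurd (Finset.mem_pi.mpr (fun _ _ => by simp)) h
  have h3 : (∏ n ∈ S, (α n : ℂ)) = ((∏ n ∈ S, α n : ℝ) : ℂ) := by
    rw [Complex.ofReal_prod]
  rw [h3] at h2
  exact_mod_cast h2

/-- linear interpolation bound for the exponential -/
theorem exp_le_interp (y r : ℝ) (h : |y| ≤ r) :
    Real.exp y ≤ Real.cosh r + y * (Real.sinh r / r) := by
  rcases eq_or_lt_of_le ((abs_nonneg y).trans h) with hr | hr
  · have : y = 0 := by
      rw [← hr] at h
      exact abs_eq_zero.mp (le_antisymm h (abs_nonneg y))
    rw [this, ← hr]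
    simp
  · have h1 := convexOn_exp.2 (Set.mem_univ (-r)) (Set.mem_univ r)
      (show (0 : ℝ) ≤ (1 - y / r) / 2 by
        have : y / r ≤ 1 := by rw [div_le_one hr]; exact (le_abs_self y).trans h
        linarith)
      (show (0 : ℝ) ≤ (1 + y / r) / 2 by
        have : -1 ≤ y / r := by
          rw [le_div_iff₀ hr]
          have := neg_abs_le y
          linarith
        linarith)
      (by ring)
    simp only [smul_eq_mul] at h1
    have h2 : (1 - y / r) / 2 * -r + (1 + y / r) / 2 * r = y := by
      field_simp
      ring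
    rw [h2] at h1
    refine h1.trans (le_of_eq ?_)
    rw [Real.cosh_eq, Real.sinh_eq]
    field_simp
    ring

/-- the moment generating function bound on a quasi-independent set -/
theorem mgf_qi (S : Finset (Ghat m)) (hS : QI (S : Set (Ghat m))) (a : Ghat m → ℂ) (s : ℝ) :
    ∫ t, Real.exp (s * (∑ n ∈ S, a n * character m n t).re) ∂(haarG m) ≤
      Real.exp (s ^ 2 * (∑ n ∈ S, ‖a n‖ ^ 2) / 2) := by
  have hcont : Continuous fun t : G m => (∑ n ∈ S, a n * character m n t).re :=
    Complex.continuous_re.comp
      (continuous_finsetSum _ fun n _ => continuous_const.mul (continuous_char n))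
  have h1 : ∀ t : G m, Real.exp (s * (∑ n ∈ S, a n * character m n t).re) ≤
      ∏ n ∈ S, (Real.cosh (|s| * ‖a n‖) +
        2 * ((((s * (Real.sinh (|s| * ‖a n‖) / (|s| * ‖a n‖)) / 2 : ℝ) : ℂ) * a n) *
          character m n t).re) := by
    intro t
    rw [Complex.re_sum, Finset.mul_sum, Real.exp_sum]
    apply Finset.prod_le_prod
    · intro n _
      exact (Real.exp_pos _).le
    · intro n _
      have h2 := exp_le_interp (s * (a n * character m n t).re) (|s| * ‖a n‖) (by
        rw [abs_mul]
        apply mul_le_mul_of_nonneg_left _ (abs_nonneg s)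
        calc |(a n * character m n t).re| ≤ ‖a n * character m n t‖ := Complex.abs_re_le_norm _
          _ = ‖a n‖ := by rw [norm_mul, norm_char, mul_one])
      refine h2.trans (le_of_eq ?_)
      rw [mul_assoc (((s * (Real.sinh (|s| * ‖a n‖) / (|s| * ‖a n‖)) / 2 : ℝ) : ℂ))]
      rw [Complex.re_ofReal_mul]
      ring
  calc ∫ t, Real.exp (s * (∑ n ∈ S, a n * character m n t).re) ∂(haarG m)
      ≤ ∫ t, ∏ n ∈ S, (Real.cosh (|s| * ‖a n‖) +
        2 * ((((s * (Real.sinh (|s| * ‖a n‖) / (|s| * ‖a n‖)) / 2 : ℝ) : ℂ) * a n) *
          character m n t).re) ∂(haarG m) := by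
        apply integral_mono
        · exact integrable_of_cont_real (Real.continuous_exp.comp (continuous_const.mul hcont))
        · apply integrable_of_cont_real
          apply continuous_finsetProd
          intro n _
          exact continuous_const.add (continuous_const.mul (Complex.continuous_re.comp
            (continuous_const.mul (continuous_char n))))
        · exact h1
    _ = ∏ n ∈ S, Real.cosh (|s| * ‖a n‖) := riesz_integral S hS _ _
    _ ≤ ∏ n ∈ S, Real.exp ((|s| * ‖a n‖) ^ 2 / 2) := by
        apply Finset.prod_le_prod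
        · intro n _; exact (Real.cosh_pos _).le
        · intro n _; exact Real.cosh_le_exp_half_sq _
    _ = Real.exp (s ^ 2 * (∑ n ∈ S, ‖a n‖ ^ 2) / 2) := by
        rw [← Real.exp_sum]
        congr 1
        rw [Finset.mul_sum, Finset.sum_div]
        apply Finset.sum_congr rfl
        intro n _
        rw [mul_pow, sq_abs]

end Pool.Agent.Lib.MP_080bf7_an
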