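import Mathlib
import Pool.Agent.Lib.MP_080bf7_an.Upper

/-! A finite union of quasi-independent sets is subgaussian (continued). -/

namespace Pool.Agent.Lib.MP_080bf7_an

open MeasureTheory

variable {m : ℕ} [NeZero m]

/-- moment generating function bound for a finite union of quasi-independent sets -/
theorem mgf_union (S : Finset (Ghat m)) (N : ℕ) (c : Ghat m → Fin N)
    (hS : ∀ i : Fin N, QI ((S.filter (fun n => c n = i) : Finset (Ghat m)) : Set (Ghat m)))
    (a : Ghat m → ℂ) (s : ℝ) :
    ∫ t, Real.exp (s * (∑ n ∈ S, a n * character m n t).re) ∂(haarG m) ≤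
      Real.exp ((N * s) ^ 2 * (∑ n ∈ S, ‖a n‖ ^ 2) / 2) := by
  classical
  rcases Nat.eq_zero_or_pos N with hN | hN
  · subst hN
    have hSe : S = ∅ := by
      rw [Finset.eq_empty_iff_forall_notMem]
      intro n _
      exact (c n).elim0
    subst hSe
    simp
  have hNpos : (0 : ℝ) < N := by exact_mod_cast hN
  have hcont : ∀ S' : Finset (Ghat m), Continuous fun t : G m =>
      (∑ n ∈ S', a n * character m n t).re := fun S' =>
    Complex.continuous_re.comp
      (continuous_finsetSum _ fun n _ => continuous_const.mul (continuous_char n))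
  have h1 : ∀ t : G m, Real.exp (s * (∑ n ∈ S, a n * character m n t).re) ≤
      ∑ i : Fin N, (1 / (N : ℝ)) * Real.exp ((N * s) *
        (∑ n ∈ S.filter (fun n => c n = i), a n * character m n t).re) := by
    intro t
    have h2 := convexOn_exp.map_sum_le (t := (Finset.univ : Finset (Fin N)))
      (w := fun _ => 1 / (N : ℝ))
      (p := fun i => (N * s) * (∑ n ∈ S.filter (fun n => c n = i), a n * character m n t).re)
      (by intro i _; positivity)
      (by simp [hNpos.ne'])
      (by intro i _; trivial)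
    simp only [smul_eq_mul] at h2
    refine le_trans (le_of_eq ?_) h2
    congr 1
    have h3 : (∑ n ∈ S, a n * character m n t) =
        ∑ i : Fin N, ∑ n ∈ S.filter (fun n => c n = i), a n * character m n t := by
      rw [Finset.sum_fiberwise]
    rw [h3, Complex.re_sum, Finset.mul_sum]
    apply Finset.sum_congr rfl
    intro i _
    field_simp
  have hint : ∀ i : Fin N, Integrable (fun t : G m => (1 / (N : ℝ)) * Real.exp ((N * s) *
        (∑ n ∈ S.filter (fun n => c n = i), a n * character m n t).re)) (haarG m) := fun i =>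
    integrable_of_cont_real (continuous_const.mul (Real.continuous_exp.comp
      (continuous_const.mul (hcont _))))
  calc ∫ t, Real.exp (s * (∑ n ∈ S, a n * character m n t).re) ∂(haarG m)
      ≤ ∫ t, ∑ i : Fin N, (1 / (N : ℝ)) * Real.exp ((N * s) *
        (∑ n ∈ S.filter (fun n => c n = i), a n * character m n t).re) ∂(haarG m) := by
        apply integral_mono
        · exact integrable_of_cont_real (Real.continuous_exp.comp
            (continuous_const.mul (hcont _)))
        · exact integrable_finsetSum _ (fun i _ => hint i)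
        · exact h1
    _ = ∑ i : Fin N, (1 / (N : ℝ)) * ∫ t, Real.exp ((N * s) *
        (∑ n ∈ S.filter (fun n => c n = i), a n * character m n t).re) ∂(haarG m) := by
        rw [integral_finsetSum _ (fun i _ => hint i)]
        apply Finset.sum_congr rfl
        intro i _
        rw [integral_const_mul]
    _ ≤ ∑ i : Fin N, (1 / (N : ℝ)) * Real.exp ((N * s) ^ 2 * (∑ n ∈ S, ‖a n‖ ^ 2) / 2) := by
        apply Finset.sum_le_sum
        intro i _
        apply mul_le_mul_of_nonneg_left _ (by positivity)
        refine (mgf_qi _ (hS i) a (N * s)).trans ?_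
        apply Real.exp_le_exp.mpr
        apply div_le_div_of_nonneg_right _ (by norm_num)
        apply mul_le_mul_of_nonneg_left _ (by positivity)
        apply Finset.sum_le_sum_of_subset_of_nonneg (Finset.filter_subset _ _)
        intro n _ _
        positivity
    _ = Real.exp ((N * s) ^ 2 * (∑ n ∈ S, ‖a n‖ ^ 2) / 2) := by
        rw [Finset.sum_const, Finset.card_univ, Fintype.card_fin, nsmul_eq_mul]
        field_simp

/-- the Gaussian identity -/
theorem gauss_identity (x : ℝ) :
    ENNReal.ofReal (Real.exp (x ^ 2)) =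
      ENNReal.ofReal (1 / Real.sqrt Real.pi) *
        ∫⁻ u : ℝ, ENNReal.ofReal (Real.exp (-u ^ 2) * Real.exp (2 * u * x)) := by
  have h1 : ∫ u : ℝ, Real.exp (-u ^ 2) * Real.exp (2 * u * x) =
      Real.exp (x ^ 2) * Real.sqrt Real.pi := by
    have h2 : ∀ u : ℝ, Real.exp (-u ^ 2) * Real.exp (2 * u * x) =
        Real.exp (x ^ 2) * Real.exp (-(1 : ℝ) * (u - x) ^ 2) := by
      intro u
      rw [← Real.exp_add, ← Real.exp_add]
      congr 1
      ring
    simp only [h2]
    rw [integral_const_mul]
    congr 1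
    rw [integral_sub_right_eq_self (fun u => Real.exp (-(1 : ℝ) * u ^ 2)) x, integral_gaussian]
    simp
  have hint : Integrable (fun u : ℝ => Real.exp (-u ^ 2) * Real.exp (2 * u * x)) := by
    have h2 : (fun u : ℝ => Real.exp (-u ^ 2) * Real.exp (2 * u * x)) =
        fun u => Real.exp (x ^ 2) * Real.exp (-(1 : ℝ) * (u - x) ^ 2) := by
      funext u
      rw [← Real.exp_add, ← Real.exp_add]
      congr 1
      ring
    rw [h2]
    exact ((integrable_exp_neg_mul_sq (b := 1) (by norm_num)).comp_sub_right x).const_mul _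
  rw [← ofReal_integral_eq_lintegral_ofReal hint (Filter.Eventually.of_forall fun u => by positivity)]
  rw [h1, ← ENNReal.ofReal_mul (by positivity)]
  congr 1
  have : Real.sqrt Real.pi ≠ 0 := (Real.sqrt_pos.mpr Real.pi_pos).ne'
  field_simp

/-- From a moment generating function bound to an exponential square bound. -/
theorem exp_sq_bound (X : G m → ℝ) (hX : Continuous X) (σ2 : ℝ) (_hσ : 0 ≤ σ2) (hσ' : σ2 ≤ 1 / 9)
    (h : ∀ s : ℝ, ∫ t, Real.exp (s * X t) ∂(haarG m) ≤ Real.exp (s ^ 2 * σ2 / 2)) :
    ∫⁻ t, ENNReal.ofReal (Real.exp (2 * X t ^ 2)) ∂(haarG m) ≤ ENNReal.ofReal (Real.exp 1) := by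
  have h1 : ∀ t, ENNReal.ofReal (Real.exp (2 * X t ^ 2)) =
      ENNReal.ofReal (1 / Real.sqrt Real.pi) *
        ∫⁻ u : ℝ, ENNReal.ofReal (Real.exp (-u ^ 2) * Real.exp (2 * u * (Real.sqrt 2 * X t))) := by
    intro t
    rw [← gauss_identity]
    rw [mul_pow, Real.sq_sqrt (by norm_num)]
  simp only [h1]
  rw [lintegral_const_mul' _ _ ENNReal.ofReal_ne_top]
  rw [lintegral_lintegral_swap]
  · have h2 : ∀ u : ℝ, ∫⁻ t, ENNReal.ofReal (Real.exp (-u ^ 2) *
        Real.exp (2 * u * (Real.sqrt 2 * X t))) ∂(haarG m) ≤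
        ENNReal.ofReal (Real.exp (-(5 / 9 : ℝ) * u ^ 2)) := by
      intro u
      have hint : Integrable (fun t => Real.exp (-u ^ 2) *
        Real.exp (2 * u * (Real.sqrt 2 * X t))) (haarG m) :=
        integrable_of_cont_real (continuous_const.mul (Real.continuous_exp.comp
          (continuous_const.mul (continuous_const.mul hX))))
      rw [← ofReal_integral_eq_lintegral_ofReal hint
        (Filter.Eventually.of_forall fun t => by positivity)]
      apply ENNReal.ofReal_le_ofReal
      rw [integral_const_mul]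
      have h3 := h (2 * u * Real.sqrt 2)
      have h4 : ∀ t, Real.exp (2 * u * Real.sqrt 2 * X t) =
          Real.exp (2 * u * (Real.sqrt 2 * X t)) := by
        intro t; congr 1; ring
      simp only [h4] at h3
      calc Real.exp (-u ^ 2) * ∫ t, Real.exp (2 * u * (Real.sqrt 2 * X t)) ∂(haarG m)
          ≤ Real.exp (-u ^ 2) * Real.exp ((2 * u * Real.sqrt 2) ^ 2 * σ2 / 2) :=
            mul_le_mul_of_nonneg_left h3 (Real.exp_pos _).le
        _ ≤ Real.exp (-(5 / 9 : ℝ) * u ^ 2) := by
            rw [← Real.exp_add]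
            apply Real.exp_le_exp.mpr
            have h5 : (2 * u * Real.sqrt 2) ^ 2 = 8 * u ^ 2 := by
              rw [mul_pow, Real.sq_sqrt (by norm_num)]; ring
            rw [h5]
            nlinarith [sq_nonneg u]
    calc ENNReal.ofReal (1 / Real.sqrt Real.pi) * ∫⁻ u : ℝ, ∫⁻ t, ENNReal.ofReal
          (Real.exp (-u ^ 2) * Real.exp (2 * u * (Real.sqrt 2 * X t))) ∂(haarG m)
        ≤ ENNReal.ofReal (1 / Real.sqrt Real.pi) *
          ∫⁻ u : ℝ, ENNReal.ofReal (Real.exp (-(5 / 9 : ℝ) * u ^ 2)) := by
          gcongr with u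
          exact h2 u
      _ = ENNReal.ofReal (1 / Real.sqrt Real.pi * Real.sqrt (Real.pi / (5 / 9))) := by
          rw [← ofReal_integral_eq_lintegral_ofReal
            (integrable_exp_neg_mul_sq (b := (5 / 9 : ℝ)) (by norm_num))
            (Filter.Eventually.of_forall fun u => by positivity)]
          rw [integral_gaussian, ← ENNReal.ofReal_mul (by positivity)]
      _ ≤ ENNReal.ofReal (Real.exp 1) := by
          apply ENNReal.ofReal_le_ofReal
          have h6 : 1 / Real.sqrt Real.pi * Real.sqrt (Real.pi / (5 / 9)) = Real.sqrt (9 / 5) := by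
            rw [one_div, ← Real.sqrt_inv, ← Real.sqrt_mul (by positivity)]
            congr 1
            have := Real.pi_pos.ne'
            field_simp
          rw [h6]
          have h7 : Real.sqrt (9 / 5) ≤ 2 := by
            rw [Real.sqrt_le_left (by norm_num)]
            norm_num
          have h8 : (2 : ℝ) ≤ Real.exp 1 := by
            have := Real.add_one_le_exp (1 : ℝ)
            linarith
          exact h7.trans h8
  · apply Measurable.aemeasurable
    apply ENNReal.measurable_ofReal.comp
    apply Continuous.measurable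
    fun_prop

theorem union_subgaussian (Λ : Set (Ghat m)) (N : ℕ) (P : Fin N → Set (Ghat m))
    (hP : ∀ i, IsQuasiIndependent m (P i)) (hΛ : Λ = ⋃ i, P i) : IsSubgaussian m Λ := by
  classical
  refine ⟨3 * N, fun a ha => ?_⟩
  set S := a.support with hSdef
  set f : G m → ℂ := fun t => ∑ n ∈ S, a n * character m n t with hf
  set σ2 : ℝ := ∑ n ∈ S, ‖a n‖ ^ 2 with hσ2
  have hσ0 : 0 ≤ σ2 := Finset.sum_nonneg fun n _ => by positivity
  rcases Finset.eq_empty_or_nonempty S with hSe | hSne
  · -- the zero function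
    have h0 : σ2 = 0 := by rw [hσ2, hSe]; simp
    rw [h0, Real.sqrt_zero, mul_zero]
    apply le_of_forall_pos_le_add
    intro ε hε
    rw [zero_add]
    apply csInf_le ⟨0, fun c hc => hc.1.le⟩
    refine psiSet_nonempty hε (fun t => ?_)
    simp only [hf, hSe, Finset.sum_empty, norm_zero]
    exact hε.le
  obtain ⟨n0, hn0⟩ := hSne
  have hmemP : ∀ n ∈ S, ∃ i, n ∈ P i := by
    intro n hn
    have := ha (by exact_mod_cast hn)
    rw [hΛ, Set.mem_iUnion] at this
    exact this
  have hNe : Nonempty (Fin N) := ⟨(hmemP n0 hn0).choose⟩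
  have hN : 0 < N := by
    rcases Nat.eq_zero_or_pos N with h | h
    · subst h; exact hNe.some.elim0
    · exact h
  have hNpos : (0 : ℝ) < N := by exact_mod_cast hN
  have hσpos : 0 < σ2 := by
    apply Finset.sum_pos'
    · intro n _; positivity
    · refine ⟨n0, hn0, ?_⟩
      have : a n0 ≠ 0 := by simpa [hSdef] using hn0
      positivity
  -- colouring
  let c : Ghat m → Fin N := fun n => if h : ∃ i, n ∈ P i then h.choose else hNe.some
  have hc : ∀ n ∈ S, n ∈ P (c n) := by
    intro n hn
    have h := hmemP n hn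
    simp only [c, h, dif_pos]
    exact h.choose_spec
  have hQI : ∀ i : Fin N,
      QI ((S.filter (fun n => c n = i) : Finset (Ghat m)) : Set (Ghat m)) := by
    intro i s ξ hs hξ hsum
    refine (hP i).2 s ξ (fun n hn => ?_) hξ hsum
    have := hs hn
    simp only [Finset.coe_filter, Set.mem_ofPred_eq] at this
    rw [← this.2]
    exact hc n this.1
  -- apply the general bound
  set K : ℝ := 3 * N * Real.sqrt σ2 with hK
  have hsq : 0 < Real.sqrt σ2 := Real.sqrt_pos.mpr hσpos
  have hKpos : 0 < K := by positivity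
  have hKsq : K ^ 2 = 9 * N ^ 2 * σ2 := by
    rw [hK, mul_pow, Real.sq_sqrt hσ0]; ring
  apply csInf_le ⟨0, fun c hc => hc.1.le⟩
  refine ⟨hKpos, ?_⟩
  have hfcont : Continuous f :=
    continuous_finsetSum _ fun n _ => continuous_const.mul (continuous_char n)
  have hX : ∀ s : ℝ, ∫ t, Real.exp (s * ((f t).re / K)) ∂(haarG m) ≤
      Real.exp (s ^ 2 * (1 / 9) / 2) := by
    intro s
    have h1 := mgf_union S N c hQI a (s / K)
    have h2 : ∀ t, s * ((f t).re / K) = (s / K) * (∑ n ∈ S, a n * character m n t).re := by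
      intro t; rw [hf]; ring
    simp only [h2]
    refine h1.trans (le_of_eq ?_)
    congr 2
    rw [← hσ2, mul_pow, div_pow, hKsq]
    field_simp
  have hY : ∀ s : ℝ, ∫ t, Real.exp (s * ((f t).im / K)) ∂(haarG m) ≤
      Real.exp (s ^ 2 * (1 / 9) / 2) := by
    intro s
    have h1 := mgf_union S N c hQI (fun n => -Complex.I * a n) (s / K)
    have h2 : ∀ t, s * ((f t).im / K) =
        (s / K) * (∑ n ∈ S, (-Complex.I * a n) * character m n t).re := by
      intro t
      have h3 : (∑ n ∈ S, (-Complex.I * a n) * character m n t) = -Complex.I * f t := by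
        rw [hf, Finset.mul_sum]
        apply Finset.sum_congr rfl
        intro n _
        ring
      rw [h3]
      simp
      ring
    simp only [h2]
    refine h1.trans (le_of_eq ?_)
    have h4 : ∑ n ∈ S, ‖-Complex.I * a n‖ ^ 2 = σ2 := by
      rw [hσ2]
      apply Finset.sum_congr rfl
      intro n _
      rw [norm_mul, norm_neg, Complex.norm_I, one_mul]
    rw [h4]
    congr 2
    rw [mul_pow, div_pow, hKsq]
    field_simp
  have bX := exp_sq_bound (fun t => (f t).re / K)
    ((Complex.continuous_re.comp hfcont).div_const K) (1 / 9) (by norm_num) le_rfl hX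
  have bY := exp_sq_bound (fun t => (f t).im / K)
    ((Complex.continuous_im.comp hfcont).div_const K) (1 / 9) (by norm_num) le_rfl hY
  have hpt : ∀ t, ENNReal.ofReal (Real.exp (‖f t‖ ^ 2 / K ^ 2)) ≤
      ENNReal.ofReal (1 / 2) * ENNReal.ofReal (Real.exp (2 * ((f t).re / K) ^ 2)) +
      ENNReal.ofReal (1 / 2) * ENNReal.ofReal (Real.exp (2 * ((f t).im / K) ^ 2)) := by
    intro t
    rw [← ENNReal.ofReal_mul (by norm_num), ← ENNReal.ofReal_mul (by norm_num),
      ← ENNReal.ofReal_add (by positivity) (by positivity)]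
    apply ENNReal.ofReal_le_ofReal
    have h1 := convexOn_exp.2 (Set.mem_univ (2 * ((f t).re / K) ^ 2))
      (Set.mem_univ (2 * ((f t).im / K) ^ 2))
      (show (0 : ℝ) ≤ 1 / 2 by norm_num) (show (0 : ℝ) ≤ 1 / 2 by norm_num) (by norm_num)
    simp only [smul_eq_mul] at h1
    refine le_trans (le_of_eq ?_) h1
    congr 1
    rw [← Complex.normSq_eq_norm_sq, Complex.normSq_apply]
    field_simp
  calc ∫⁻ t, ENNReal.ofReal (Real.exp (‖f t‖ ^ 2 / K ^ 2)) ∂(haarG m)
      ≤ ∫⁻ t, (ENNReal.ofReal (1 / 2) * ENNReal.ofReal (Real.exp (2 * ((f t).re / K) ^ 2)) +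
      ENNReal.ofReal (1 / 2) * ENNReal.ofReal (Real.exp (2 * ((f t).im / K) ^ 2)))
        ∂(haarG m) := lintegral_mono hpt
    _ = ENNReal.ofReal (1 / 2) * ∫⁻ t, ENNReal.ofReal (Real.exp (2 * ((f t).re / K) ^ 2))
          ∂(haarG m) +
        ENNReal.ofReal (1 / 2) * ∫⁻ t, ENNReal.ofReal (Real.exp (2 * ((f t).im / K) ^ 2))
          ∂(haarG m) := by
        rw [lintegral_add_left, lintegral_const_mul' _ _ ENNReal.ofReal_ne_top,
          lintegral_const_mul' _ _ ENNReal.ofReal_ne_top]
        have : Continuous fun t => (f t).re := Complex.continuous_re.comp hfcont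
        apply Measurable.const_mul
        apply ENNReal.measurable_ofReal.comp
        apply Continuous.measurable
        fun_prop
    _ ≤ ENNReal.ofReal (1 / 2) * ENNReal.ofReal (Real.exp 1) +
        ENNReal.ofReal (1 / 2) * ENNReal.ofReal (Real.exp 1) := by
        gcongr
    _ = ENNReal.ofReal (Real.exp 1) := by
        rw [← add_mul, ← ENNReal.ofReal_add (by norm_num) (by norm_num)]
        norm_num

end Pool.Agent.Lib.MP_080bf7_an
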