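import Mathlib
import Pool.Agent.Lib.MP_080bf7_an.Union

/-! The main theorem. -/

namespace Pool.Agent.Lib.MP_080bf7_an

open MeasureTheory

variable {m : ℕ} [NeZero m]

theorem subgaussian_imp (Λ : Set (Ghat m)) (h0 : (0 : Ghat m) ∉ Λ) (h : IsSubgaussian m Λ) :
    ∃ (N : ℕ) (P : Fin N → Set (Ghat m)),
      (∀ i, IsQuasiIndependent m (P i)) ∧ Λ = ⋃ i, P i := by
  classical
  obtain ⟨C, hC⟩ := dim_condition Λ h0 h
  rcases Set.eq_empty_or_nonempty Λ with hΛ | ⟨v0, hv0⟩
  · exact ⟨0, fun i => i.elim0, fun i => i.elim0, by simp [hΛ]⟩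
  have hne : Nonempty (m.primeFactors × Fin C) := by
    have h1 := hC {v0} (by simpa using hv0) ⟨v0, by simp⟩
    have hC0 : C ≠ 0 := by
      intro hc
      rw [hc, zero_mul] at h1
      omega
    have hP : m.primeFactors.Nonempty := by
      rw [Finset.nonempty_iff_ne_empty]
      intro hc
      rw [hc, Finset.sum_empty, mul_zero] at h1
      omega
    obtain ⟨p, hp⟩ := hP
    exact ⟨(⟨p, hp⟩, ⟨0, Nat.pos_of_ne_zero hC0⟩)⟩
  have hfin : ∀ s : Finset (Ghat m), ∃ κ : Ghat m → m.primeFactors × Fin C,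
      ∀ i, QI {v : Ghat m | v ∈ s.filter (fun v => v ∈ Λ) ∧ κ v = i} := by
    intro s
    apply cover m.primeFactors (fun p hp => Nat.prime_of_mem_primeFactors hp) C _ _ hne
    intro J hJ hJne
    apply hC J _ hJne
    intro v hv
    exact (Finset.mem_filter.mp (hJ (by exact_mod_cast hv))).2
  choose g hg using hfin
  obtain ⟨χ, hχ⟩ := Finset.rado_selection g
  let e : m.primeFactors × Fin C ≃ Fin (Fintype.card (m.primeFactors × Fin C)) :=
    Fintype.equivFin _
  refine ⟨Fintype.card (m.primeFactors × Fin C), fun i => {v | v ∈ Λ ∧ e (χ v) = i},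
    fun i => ⟨fun hcon => h0 hcon.1, ?_⟩, ?_⟩
  · intro s ξ hs hξ hsum
    obtain ⟨t, hst, ht⟩ := hχ s
    refine hg t (e.symm i) s ξ ?_ hξ hsum
    intro v hv
    have hv' := hs hv
    refine ⟨Finset.mem_filter.mpr ⟨hst (by exact_mod_cast hv), hv'.1⟩, ?_⟩
    rw [← ht v (by exact_mod_cast hv), ← hv'.2]
    simp
  · ext v
    simp only [Set.mem_iUnion, Set.mem_ofPred_eq]
    constructor
    · intro hv
      exact ⟨_, hv, rfl⟩
    · rintro ⟨i, hv, _⟩
      exact hv

end Pool.Agent.Lib.MP_080bf7_an
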